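import Mathlib

set_option autoImplicit false

open Filter Topology Function Set

namespace Pool.Agent.H.MP_df75a5_an

/-- Upper density of a set of positive integers. -/
noncomputable def ud (E : Set ℕ) : ℝ :=
  limsup (fun N : ℕ => ((E ∩ Icc 1 N).ncard : ℝ) / N) atTop

/-- The set of return times `R_f(E)`. -/
def R (f : ℝ → ℝ) (E : Set ℕ) : Set ℕ :=
  {n | 1 ≤ n ∧ ∃ x ∈ E, ∃ y ∈ E, (y : ℤ) = x + ⌊f n⌋}

/-- Thick sets. -/
def Thick (S : Set ℕ) : Prop := ∀ L : ℕ, ∃ a : ℕ, Icc a (a + L) ⊆ S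

theorem part {ι : Type} [Fintype ι] (c : ℕ → ι) : ∃ i, 0 < ud {n | 1 ≤ n ∧ c n = i} := by
  classical
  by_contra h
  push Not at h
  have b : ∀ (E : Set ℕ) (N : ℕ), ((E ∩ Icc 1 N).ncard : ℝ) / N ≤ 1 := fun E N => by
    refine div_le_one_of_le₀ (Nat.cast_le.2 ?_) (Nat.cast_nonneg _)
    simpa using ncard_le_ncard (inter_subset_right (s := E) (t := Icc 1 N)) (finite_Icc _ _)
  have t : ∀ i, Tendsto (fun N : ℕ => (({n | 1 ≤ n ∧ c n = i} ∩ Icc 1 N).ncard : ℝ) / N) atTop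
      (𝓝 0) := fun i => by
    refine tendsto_order.2 ⟨fun a ha => Eventually.of_forall fun N => ha.trans_le (by positivity),
      fun a ha => eventually_lt_of_limsup_lt ((h i).trans_lt ha) ⟨1, ?_⟩⟩
    exact eventually_map.2 (Eventually.of_forall fun N => b _ N)
  have s := tendsto_finsetSum Finset.univ fun i _ => t i
  rw [Finset.sum_const_zero] at s
  obtain ⟨N, h1, h2⟩ := ((s.eventually_lt_const one_pos).and (eventually_ge_atTop 1)).exists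
  refine h1.not_ge ?_
  rw [← Finset.sum_div, one_le_div (by positivity), ← Nat.cast_sum, Nat.cast_le]
  have e := Finset.card_eq_sum_card_fiberwise (f := c) (s := Finset.Icc 1 N) (t := Finset.univ)
    fun _ _ => Finset.mem_univ _
  rw [Nat.card_Icc, add_tsub_cancel_right] at e
  refine e.le.trans (Finset.sum_le_sum fun i _ => ?_)
  rw [← ncard_coe_finset]
  refine ncard_le_ncard (fun n hn => ?_) ((finite_Icc _ _).inter_of_right _)
  simp only [Finset.coe_filter, Finset.mem_Icc, mem_ofPred_eq] at hn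
  exact ⟨⟨hn.1.1, hn.2⟩, hn.1⟩

theorem sec {x K : ℝ} (hK : 1 ≤ K) (h : K ^ 2 ≤ x) :
    |(x + 1 + 1) ^ (3 / 2 : ℝ) - 2 * (x + 1) ^ (3 / 2 : ℝ) + x ^ (3 / 2 : ℝ)| * K ≤ 2 := by
  have x0 : 0 ≤ x := by nlinarith
  have e : ∀ {y : ℝ}, 0 ≤ y → y ^ (3 / 2 : ℝ) = √y ^ 3 := fun hy => by
    rw [Real.sqrt_eq_rpow, ← Real.rpow_natCast, ← Real.rpow_mul hy]; norm_num
  rw [e x0, e (by linarith), e (by linarith)]
  have hu := Real.sq_sqrt x0
  have hv := Real.sq_sqrt (show 0 ≤ x + 1 by linarith)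
  have hw := Real.sq_sqrt (show 0 ≤ x + 1 + 1 by linarith)
  have uK : K ≤ √x := Real.le_sqrt_of_sq_le h
  have uv : √x ≤ √(x + 1) := Real.sqrt_le_sqrt (by linarith)
  have vw : √(x + 1) ≤ √(x + 1 + 1) := Real.sqrt_le_sqrt (by linarith)
  generalize √x = u at *
  generalize √(x + 1) = v at *
  generalize √(x + 1 + 1) = w at *
  have m : ∀ {u v : ℝ}, 0 ≤ u → u ≤ v → v ^ 2 = u ^ 2 + 1 →
      3 / 2 * u ≤ v ^ 3 - u ^ 3 ∧ v ^ 3 - u ^ 3 ≤ 3 / 2 * v := fun {u v} h0 h1 h2 => by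
    have a : 0 ≤ (v - u) * ((v - u) * (2 * v + u)) := by
      have := sub_nonneg.2 h1
      have : 0 ≤ 2 * v + u := by linarith
      positivity
    have b : 0 ≤ (v - u) * ((v - u) * (v + 2 * u)) := by
      have := sub_nonneg.2 h1
      have : 0 ≤ v + 2 * u := by linarith
      positivity
    have c1 : u = u * (v ^ 2 - u ^ 2) := by rw [h2]; ring
    have c2 : v = v * (v ^ 2 - u ^ 2) := by rw [h2]; ring
    constructor <;> nlinarith
  obtain ⟨a1, a2⟩ := m (u := u) (v := v) (by linarith) uv (by linarith)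
  obtain ⟨a3, a4⟩ := m (u := v) (v := w) (by linarith) vw (by linarith)
  rw [abs_of_nonneg (by linarith)]
  have : (w - u) * K ≤ 1 := by nlinarith
  nlinarith

theorem lin {P : ℕ → ℤ} {g : ℕ → ℝ} {a L : ℕ} (h : ∀ n ∈ Icc a (a + L), ⌊g n⌋ = 4 * P n)
    (s : ∀ n, a ≤ n → |g (n + 1 + 1) - 2 * g (n + 1) + g n| ≤ 2) :
    ∀ k ≤ L, P (a + k) = P a + k * (P (a + 1) - P a) := by
  have b : ∀ n ∈ Icc a (a + L), (4 * P n : ℝ) ≤ g n ∧ g n < 4 * P n + 1 := fun n hn => by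
    simpa using Int.floor_eq_iff.1 (h n hn)
  intro k
  induction k using Nat.twoStepInduction with
  | zero => simp
  | one => simp
  | more k i1 i2 =>
    intro hk
    have b0 := b (a + k) ⟨by omega, by omega⟩
    have b1 := b (a + k + 1) ⟨by omega, by omega⟩
    have b2 := b (a + k + 1 + 1) ⟨by omega, by omega⟩
    have := abs_le.1 (s (a + k) (by omega))
    have c1 : ((P (a + k + 1 + 1) - 2 * P (a + k + 1) + P (a + k) : ℤ) : ℝ) < (1 : ℤ) := by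
      push_cast; linarith
    have c2 : ((-1 : ℤ) : ℝ) < (P (a + k + 1 + 1) - 2 * P (a + k + 1) + P (a + k) : ℤ) := by
      push_cast; linarith
    rw [Int.cast_lt] at c1 c2
    have i1 := i1 (by omega)
    have i2 := i2 (by omega)
    rw [← add_assoc] at i2
    rw [show a + (k + 2) = a + k + 1 + 1 by omega]
    push_cast at i2 ⊢
    linarith [show P (a + k + 1 + 1) - 2 * P (a + k + 1) + P (a + k) = 0 by omega]

theorem core (α : ℝ) : ∃ E : Set ℕ, (∀ x ∈ E, 1 ≤ x) ∧ 0 < ud E ∧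
    ¬ Thick (R (fun t => t ^ (3 / 2 : ℝ)) E ∩ R (fun t => α * t ^ (3 / 2 : ℝ) + t) E) := by
  have fl : ∀ x : ℝ, ⌊16 * Int.fract x⌋₊ < 16 := fun x => by
    rw [Nat.floor_lt (mul_nonneg (by norm_num) (Int.fract_nonneg x))]
    have := Int.fract_lt_one x
    push_cast; linarith
  obtain ⟨i, hi⟩ := part fun n : ℕ =>
    ((⟨n % 4, Nat.mod_lt _ (by norm_num)⟩, ⟨_, fl (α * (n / 4 : ℕ))⟩) : Fin 4 × Fin 16)
  refine ⟨_, fun x hx => hx.1, hi, fun hT => ?_⟩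
  generalize hE : ofPred _ = E at hT
  have key : ∀ f n, n ∈ R f E → ∃ P k : ℤ, ⌊f n⌋ = 4 * P ∧ |α * P - k| < 1 / 16 := by
    rintro f n ⟨-, x, hx, y, hy, e⟩
    subst hE
    have := hx.2.trans hy.2.symm
    simp only [Prod.mk.injEq, Fin.mk.injEq] at this
    refine ⟨(y / 4 : ℕ) - (x / 4 : ℕ), ⌊α * (y / 4 : ℕ)⌋ - ⌊α * (x / 4 : ℕ)⌋, by omega, ?_⟩
    have n0 := fun x : ℝ => mul_nonneg (show (0 : ℝ) ≤ 16 by norm_num) (Int.fract_nonneg x)
    have a1 := Nat.floor_le (n0 (α * (x / 4 : ℕ)))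
    have a2 := Nat.floor_le (n0 (α * (y / 4 : ℕ)))
    have a3 := Nat.lt_floor_add_one (16 * Int.fract (α * (x / 4 : ℕ)))
    have a4 := Nat.lt_floor_add_one (16 * Int.fract (α * (y / 4 : ℕ)))
    rw [this.2] at a1 a3
    generalize (⌊16 * Int.fract (α * (y / 4 : ℕ))⌋₊ : ℝ) = r at *
    simp only [Int.fract] at a1 a2 a3 a4
    rw [Int.cast_sub, Int.cast_sub, Int.cast_natCast, Int.cast_natCast, abs_lt]
    constructor <;> linarith
  obtain ⟨K, hK⟩ := exists_nat_ge (1 + |α|)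
  have α0 := abs_nonneg α
  obtain ⟨a, ha⟩ := hT (K ^ 2 + 2 * K)
  choose! P k hP using key fun t => t ^ (3 / 2 : ℝ)
  choose! Q l hQ using key fun t => α * t ^ (3 / 2 : ℝ) + t
  have K1 : 1 ≤ K := by exact_mod_cast (show (1 : ℝ) ≤ K by linarith)
  have m : ∀ n ∈ Icc (a + K ^ 2) (a + K ^ 2 + 2 * K), n ∈ Icc a (a + (K ^ 2 + 2 * K)) :=
    fun n hn => ⟨by have := hn.1; omega, by have := hn.2; omega⟩
  have s : ∀ n : ℕ, a + K ^ 2 ≤ n → _ := fun n hn => sec (x := n) (K := K) (by linarith)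
    (by exact_mod_cast (show K ^ 2 ≤ n by omega))
  have p := lin (g := fun n => (n : ℝ) ^ (3 / 2 : ℝ)) (fun n hn => (hP n (ha (m n hn)).1).1)
    (fun n hn => by
      push_cast
      exact le_trans (le_mul_of_one_le_right (abs_nonneg _) (by linarith)) (s n hn)) _ le_rfl
  have q := lin (g := fun n => α * (n : ℝ) ^ (3 / 2 : ℝ) + n) (fun n hn => (hQ n (ha (m n hn)).2).1)
    (fun n hn => by
      have : α * ((n : ℝ) + 1 + 1) ^ (3 / 2 : ℝ) + (n + 1 + 1) - 2 * (α * (n + 1) ^ (3 / 2 : ℝ) +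
        (n + 1)) + (α * n ^ (3 / 2 : ℝ) + n) = (((n : ℝ) + 1 + 1) ^ (3 / 2 : ℝ) -
          2 * (n + 1) ^ (3 / 2 : ℝ) + n ^ (3 / 2 : ℝ)) * α := by ring
      push_cast
      rw [this, abs_mul]
      exact le_trans (mul_le_mul_of_nonneg_left (by linarith) (abs_nonneg _)) (s n hn)) _ le_rfl
  set b := a + K ^ 2
  have m0 := ha (m b ⟨le_rfl, by omega⟩)
  have m1 := ha (m (b + 1) ⟨by omega, by omega⟩)
  have m2 := ha (m (b + 2 * K) ⟨by omega, le_rfl⟩)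
  obtain ⟨p0, p1⟩ := Int.floor_eq_iff.1 (hP _ m0.1).1
  obtain ⟨p2, p3⟩ := Int.floor_eq_iff.1 (hP _ m2.1).1
  obtain ⟨q0, q1⟩ := Int.floor_eq_iff.1 (hQ _ m0.2).1
  obtain ⟨q2, q3⟩ := Int.floor_eq_iff.1 (hQ _ m2.2).1
  obtain ⟨k0, k1⟩ := abs_lt.1 (hP _ m0.1).2
  obtain ⟨k2, k3⟩ := abs_lt.1 (hP _ m1.1).2
  rw [p] at p2 p3
  rw [q] at q2 q3
  generalize ((b + 2 * K : ℕ) : ℝ) ^ (3 / 2 : ℝ) = w at *
  generalize (b : ℝ) ^ (3 / 2 : ℝ) = u at *
  push_cast at p0 p1 p2 p3 q0 q1 q2 q3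
  have d : |α * (w - u - 8 * K * (P (b + 1) - P b))| ≤ |α| := by
    rw [abs_mul]
    exact mul_le_of_le_one_right α0 (abs_le.2 ⟨by linarith, by linarith⟩)
  obtain ⟨d1, d2⟩ := abs_le.1 d
  have K0 : (0 : ℝ) < K := by linarith
  have c1 : ((0 : ℤ) : ℝ) < (Q (b + 1) - Q b - (k (b + 1) - k b) : ℤ) := by
    push_cast
    refine lt_of_mul_lt_mul_left (a := (K : ℝ)) ?_ K0.le
    nlinarith
  have c2 : ((Q (b + 1) - Q b - (k (b + 1) - k b) : ℤ) : ℝ) < (1 : ℤ) := by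
    push_cast
    refine lt_of_mul_lt_mul_left (a := (K : ℝ)) ?_ K0.le
    nlinarith
  rw [Int.cast_lt] at c1 c2
  omega

end Pool.Agent.H.MP_df75a5_an
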